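import Pool.Agent.Lib.P4a177g.MainG
import Pool.Agent.Lib.P4a177g.ExcH
import Pool.Agent.Lib.P4a177y.MainY

/-!
# Beilinson's regulator on the hypersurfaces `N * ∏_s ∏_i (x_s - a_{s,i}) = 1`

Let `A` consist of `n = d + 2` lists of distinct integers `a_{s,0}, …, a_{s,m_s}`, let
`f_s = ∏_i (x - a_{s,i})`, let `N ≥ 1` be an integer and `X : N * ∏_s f_s(x_s) = 1`, a hypersurface of
dimension `n - 1` over `ℚ`. It is geometrically irreducible.

(1) The `∏ m_s` elements `ξ_p = {-(x_s - a_{s,p_s}) / (x_s - a_{s,0})}_s` of the Milnor K-group `K_n` of the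
coordinate ring of `X` are integral: they are represented by higher Chow cycles on all the proper
models over `ℤ`, and unramified at all the discrete valuations of the function field.

(2) They span the unramified part of this K-group: if `h` is unramified at the discrete valuations of
the function field that are trivial on `ℚ` then an explicit positive multiple of `h` is an integral
combination of the `ξ_p`, up to an element that becomes torsion in the Milnor K-group of the function
field and whose regulators vanish on all the tori.

(3) If `N * ∏_s |f_s(x_s)| > 1` at all the critical points (`f_s'(x_s) = 0` for all `s`), that is, if `X` is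
above the conifold, then `X` is smooth; for `n = 2` its closure in `P¹ × P¹`, a curve of genus `m_0 m_1`,
is smooth as well; and there are `∏ m_s` tori of dimension `n - 1` in the complex points of `X` such that
the matrix of the regulators of the `ξ_p` is nonsingular. So the `ξ_p` are linearly independent, and the
regulator is injective on the unramified symbols, of rank exactly `∏ m_s`.

(4) The condition in (3) can fail only if `N ≤ 4 ^ n`, `N * |a_{s,i} - a_{s,j}| ≤ 2 * 4 ^ n` for all `s, i, j`,
and two different integers of one of the lists differ by `1` or `2`. So all but finitely many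
hypersurfaces of dimension `n - 1`, up to translations of the variables, are above the conifold.
-/

set_option autoImplicit false

namespace Pool.Agent.Results.MP_4a177b_nt.AboveConifold

open P4a177h P4a177e P4a177g

theorem result {d : ℕ} (A : Fam d) {N : ℕ} (hN : 1 ≤ N) :
    GeomIrreducible A N ∧
    (∀ p, P4a177s.Admissible (xi A N p) ∧ P4a177s.UnramifiedEverywhere (xi A N p)) ∧
    (∀ h : MilnorK (d + 2) (A.CoordRing N), P4a177w.UnramifiedOverQ h →
      P4a177u.SpannedBy (xi A N)
        (((A.m 0 + 1) * (A.m 1 + 1)) ^ (d + 2) * ∏ s, (A.m s + 1)) h) ∧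
    (Above A N → Smooth A N ∧ (d = 0 → SmoothClosure A N) ∧
      ∃ γ : (∀ s, Fin (A.m s)) → Torus (d + 1) (A.CoordRing N),
        (P4a177s.regulatorMatrix (xi A N) γ).det ≠ 0) ∧
    (¬ Above A N → N ≤ 4 ^ (d + 2) ∧
      (∀ s i j, (N : ℤ) * |A.a s i - A.a s j| ≤ 2 * 4 ^ (d + 2)) ∧
      ∃ s i j, i ≠ j ∧ |A.a s i - A.a s j| ≤ 2) := by
  refine ⟨geomIrreducible A N hN, fun p => ⟨admissible_xi A N p, unramified_xi A N p⟩,
    fun h hh => P4a177y.spannedByY A hN hh, ?_, ?_⟩
  · intro hA
    obtain ⟨-, h2, -, h4⟩ := mainG A hN hA
    refine ⟨h2, ?_, h4⟩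
    intro h0
    subst h0
    exact smoothClosure_of_gap A N hN h2
  · intro hA
    obtain ⟨h1, h2⟩ := exc_bound A hA
    exact ⟨h1, h2, exc_gap A hN hA⟩

end Pool.Agent.Results.MP_4a177b_nt.AboveConifold
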