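import Pool.Agent.Lib.P4a177q.FinQ

/-!
# Integral elements of `K_n` with independent regulators, and the exact unramified symbol part, for the
hypersurfaces attached to hyperplane arrangements

Let `A` be an arrangement with normal crossings of `D` hyperplanes `l_k = 0` in affine space of
dimension `n = m + 2 ≥ 2`, with integral coefficients and spanning normals, and let `X` be the affine
hypersurface `N * ∏ l_k = 1` over `ℚ`.

(a) For all large `N` divisible by a fixed integer `X` is geometrically irreducible and smooth, and the
symbols `ξ_B = A.xi N B` in the `n`-th Milnor K-group of its coordinate ring, one for every `B ∈ A.Idx`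
(their number is the number of bounded regions of the arrangement), are integral: they are represented
by higher Chow cycles on all the proper models over `ℤ` and are unramified at all the discrete
valuations of the function field; and there are as many tori of dimension `n - 1` in `X(ℂ)` such that
the matrix of the regulators is nonsingular, with determinant asymptotic to
`(-(2π)^(n-1) * log N)^(number)`. For `n = 2` this number is the number of the nodes (pairs of lines
which are not parallel) plus `1` minus the number `D` of the lines, and if any `n` of the normals are
linearly independent it is `(D - 1).choose n`: this is the genus of the curve, and the geometric genus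
of the hypersurface.

(b) Suppose that `n = 2` (`A` is any arrangement of lines without triple points, not all parallel) or
that any `n` of the normals are linearly independent. Then for EVERY `N ≥ 1` every element of the
Milnor K-group of the coordinate ring which is unramified over `ℚ` is, after multiplication by
`(D !)^(2n)`, an integral combination of the `ξ_B` up to an element that is torsion in the Milnor
K-group of the function field and has vanishing regulators.
-/

set_option autoImplicit false

namespace Pool.Agent.Results.MP_4a177b_nt.ArrangementSymbols

open P4a177h P4a177s P4a177x

theorem result {m D : ℕ} (A : Arr (m + 2) D) :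
    (∃ (N₀ : ℕ) (C : ℝ), ∀ N : ℕ, N₀ ≤ N → A.Mod ∣ N →
      A.GeomIrreducible N ∧ A.Smooth N ∧
      (∀ B, Admissible (A.xi N B) ∧ UnramifiedEverywhere (A.xi N B)) ∧ DetAsymp A N C) ∧
    (m = 0 → Nat.card A.Idx + D = Nat.card {B : Fin (m + 2) ↪o Fin D // A.lam B ≠ 0} + 1) ∧
    ((∀ p : Fin (m + 2) → Fin D, Function.Injective p → A.lam p ≠ 0) →
      Nat.card A.Idx = (D - 1).choose (m + 2)) ∧
    ((m = 0 ∨ ∀ p : Fin (m + 2) → Fin D, Function.Injective p → A.lam p ≠ 0) →
      ∀ (N : ℕ) (η : MilnorK (m + 2) (A.CoordRing N)), 1 ≤ N → P4a177w.UnramifiedOverQ η →
        P4a177u.SpannedBy (A.xi N) ((D.factorial ^ 2) ^ (m + 2)) η) :=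
  P4a177q.final A

end Pool.Agent.Results.MP_4a177b_nt.ArrangementSymbols
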