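import Pool.Agent.Lib.P4a177z.FinZ

/-!
# The integral elements of `K_(m+1)` of Calabi-Yau varieties: independent regulators, exact rank two

Let `m ≥ 2` and let `u` be an integer which divides `4 ^ (m + 1)`, that is, `u = ± 2 ^ k` with
`k ≤ 2 * m + 2`; if `m` is odd let `|u| ≠ 2 ^ (m + 1)`. The hypersurface
`X : ∏ (x_i - 1 / x_i) = u` of the split torus of dimension `m + 1` over `ℚ` is smooth and
geometrically irreducible of dimension `m`; for `m = 2` its closure in the product of three
projective lines is smooth (a K3 surface). For `m = 3` the quotient of `X` by the sign changes of the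
coordinates is (birational to) a Calabi-Yau threefold with `b_3 = 4`, a mirror of the intersections
of four quadrics.

There are two elements of the Milnor K-group `K_(m+1)` of the coordinate ring of `X` which are
integral (represented by higher Chow cycles on all the proper models over `ℤ`, and unramified at all
the discrete valuations of the function field), which are invariant under the group of the
symmetries `x_i ↦ s_i x_i ^ e_i` of `X` (`s_i, e_i = ± 1`, `∏ s_i = ∏ e_i = 1`), and two tori of
dimension `m` in the complex points of `X`, such that the matrix of the regulators is nonsingular.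

These two elements are all there is: every element `h` of `K_(m+1)` of the coordinate ring which is
unramified at the discrete valuations of the function field which are trivial on `ℚ`, and which is
invariant in the case `|u| = 4 ^ j`, `1 ≤ j ≤ m`, is up to an explicit power of `2` an integral
combination of the two elements, up to an element which is torsion in the K-group of the function
field and has the regulator `0` on all the tori.
-/

set_option autoImplicit false

namespace Pool.Agent.Results.MP_4a177b_nt.CalabiYau

open P4a177h P4a177s P4a177t P4a177o P4a177u P4a177w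

theorem result {m : ℕ} (hm : 2 ≤ m) {u : ℤ} (hu : u ∣ 4 ^ (m + 1))
    (hu2 : Odd m → |u| ≠ 2 ^ (m + 1)) :
    GeomIrreducible m u ∧ Smooth m u ∧ (m = 2 → SmoothClosure m u) ∧
    ∃ (ξ : Fin 2 → MilnorK (m + 1) (CoordRing m u)) (γ : Fin 2 → Torus m (CoordRing m u)),
      (∀ p, P4a177s.Admissible (ξ p) ∧ UnramifiedEverywhere (ξ p) ∧ Invariant (ξ p)) ∧
      (regulatorMatrix ξ γ).det ≠ 0 ∧
      ∀ h : MilnorK (m + 1) (CoordRing m u), UnramifiedOverQ h →
        ((∀ j, 1 ≤ j → j ≤ m → |u| ≠ 4 ^ j) ∨ Invariant h) →
          SpannedBy ξ (2 ^ (m ^ 2 + 5 * m + 3)) h :=
  P4a177z.main_exact hm hu hu2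

end Pool.Agent.Results.MP_4a177b_nt.CalabiYau
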