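import Pool.Agent.Lib.P4a177d.MainD
import Pool.Agent.Lib.P4a177u.MainU

/-!
# Beilinson's regulator on every curve of the family of Dokchitser, de Jeu and Zagier

Let `b_0 < … < b_g` and `N ≠ 0` be integers and `P(x) = N * ∏_i (x - b_i)`. Consider the curve
`C : N * t * (t - 1) * ∏_i (x - b_i) = 1` over `ℚ`; with `w = P(x) * (2 * t - 1)` it is the hyperelliptic
curve `w ^ 2 = P(x) * (P(x) + 4)` of genus `g`. The only hypothesis is that it is smooth.

Then `C` is geometrically irreducible and its closure in `P¹ × P¹` is smooth. The `g` elements
`ξ_p = {-(t - 1) / t, -(x - b_p) / (x - b_0)}` of the Milnor K-group `K_2` of the coordinate ring of `C`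
are integral (represented by higher Chow cycles on all the proper models over `ℤ`, and unramified
at all the discrete valuations of the function field), and there are `g` loops in the complex points of
`C` such that the matrix of the regulators is nonsingular. Moreover, for every element `h` of the Milnor
K-group `K_2` of the coordinate ring which is unramified at the valuations of the function field trivial
on `ℚ` there is an integral combination of the `ξ_p` which differs from `4 * (g + 1) * h` by a negligible
element: torsion in `K_2` of the function field, with vanishing regulators.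
-/

set_option autoImplicit false

namespace Pool.Agent.Results.MP_4a177b_nt.DokchitserDeJeuZagier

open P4a177h P4a177d

theorem result {g : ℕ} {b : Fin (g + 1) → ℤ} (hb : StrictMono b) {N : ℤ} (hN : N ≠ 0)
    (hs : Smooth b N) :
    GeomIrreducible b N ∧ SmoothClosure b N ∧
    (∀ p, P4a177s.Admissible (xi b N p) ∧ P4a177s.UnramifiedEverywhere (xi b N p)) ∧
    (∃ γ : Fin g → Torus 1 (CoordRing b N), (P4a177s.regulatorMatrix (xi b N) γ).det ≠ 0) ∧
    ∀ h : MilnorK 2 (CoordRing b N), P4a177u.UnramifiedOverQ h →
      P4a177u.SpannedBy (xi b N) (4 * (g + 1)) h :=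
  ⟨geomIrreducible b N hN, smoothClosure b N hb hN hs,
    fun p => ⟨admissible_xi b N p, unramified_xi b N p⟩, exists_loops_det hb hN hs,
    P4a177u.spanned hb hN⟩

end Pool.Agent.Results.MP_4a177b_nt.DokchitserDeJeuZagier
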